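import Pool.Agent.Helper54.S4.Stmts

/-!
Module FANS4 of the `SPR_4` project: the distinguished facets are in the list.
-/

namespace Pool.Agent.Helper54.S4

open Finset Pool.Agent.Helper54.SP

/-- labels of the triangles -/
theorem fans4_TT : ∀ t : Bool, ∀ T ∈ TT t, T.1 < T.2.1 ∧ T.2.1 < T.2.2 ∧ T.2.2 < 6 := by
  decide

/-- labels of the flips -/
theorem fans4_FL : ∀ t : Bool, ∀ T ∈ FL t,
    T.1 < T.2.1 ∧ T.2.1 < T.2.2.1 ∧ T.2.2.1 < T.2.2.2 ∧ T.2.2.2 < 6 := by
  decide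

/-- the sign function alternates -/
theorem fans4_alt (hAL : ST_AL4) (hRB : ST_RB4) (hALT : ST_ALT) (Γ : List Gt) (nw : ℕ)
    (hW : WF Γ nw) : Alt 5 (N4 Γ + 2) (ch5 Γ nw) := by
  have h := hALT 4 (N4 Γ + 1) (ch4 Γ nw) (rb Γ nw) (hAL (c4 Γ nw) (N4 Γ + 1)).1
    (hRB Γ nw hW).1 (hRB Γ nw hW).2.1
  exact h

/-- a facet of four different points -/
theorem fans4_mk (hAL : ST_AL4) (hRB : ST_RB4) (hALT : ST_ALT) (hMEM : ST_MEMF) (Γ : List Gt)
    (nw : ℕ) (hW : WF Γ nw) (a b c d : ℕ) (hn : [a, b, c, d].Nodup) (ha : a < N4 Γ + 2)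
    (hb : b < N4 Γ + 2) (hc : c < N4 Γ + 2) (hd : d < N4 Γ + 2) (hC : Cst Γ nw [a, b, c, d]) :
    ∃ f ∈ fac4 Γ nw, f.Perm [a, b, c, d] := by
  refine hMEM 4 (N4 Γ + 2) (ch5 Γ nw) [a, b, c, d] (fans4_alt hAL hRB hALT Γ nw hW) rfl hn ?_ hC
  intro i hi
  simp only [List.mem_cons, List.not_mem_nil, or_false] at hi
  rcases hi with rfl | rfl | rfl | rfl <;> assumption

/-- four different numbers -/
theorem fans4_nodup (a b c d : ℕ) (h1 : a ≠ b) (h2 : a ≠ c) (h3 : a ≠ d) (h4 : b ≠ c)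
    (h5 : b ≠ d) (h6 : c ≠ d) : [a, b, c, d].Nodup := by
  simp [h1, h2, h3, h4, h5, h6]

theorem st_FANS4 (hF1 : ST_F1) (hF2 : ST_F2) (hF3 : ST_F3') (hF4 : ST_F4') (hF5 : ST_F5)
    (hAL : ST_AL4) (hRB : ST_RB4) (_hLV : ST_LV4) (_hPT : ST_PT4) (hALT : ST_ALT)
    (hMEM : ST_MEMF) : ST_FANS4 := by
  intro Γ nw hW
  have hN : N4 Γ = 3 + 24 * Γ.length := rfl
  obtain ⟨g1, g2, g3⟩ := hF3 Γ nw hW
  refine ⟨?_, ?_, ?_, ?_, ?_, ?_, ?_⟩
  · intro p q hpq
    have h := hpq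
    obtain ⟨h1, h2, h3, h4, h5, _⟩ := h
    have h3' : p ≠ 1 := h3
    have h4' : q ≠ 1 := h4
    have hne : p ≠ q := by
      rintro rfl
      exact lt_irrefl _ h5
    exact fans4_mk hAL hRB hALT hMEM Γ nw hW _ _ _ _ (fans4_nodup _ _ _ _ (Ne.symm h3')
      (Ne.symm h4') (by omega) hne (by omega) (by omega)) (by omega) (by omega) (by omega)
      (by omega) (hF1 Γ nw hW p q hpq)
  · intro p q hpq
    have h := hpq
    obtain ⟨h1, h2, h3⟩ := h
    have h4 : p < q := by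
      rcases h3 with h | h | h | h
      · omega
      · omega
      · omega
      · omega
    exact fans4_mk hAL hRB hALT hMEM Γ nw hW _ _ _ _ (fans4_nodup _ _ _ _ (by omega)
      (by omega) (by omega) (by omega) (by omega) (by omega)) (by omega) (by omega) (by omega)
      (by omega) (hF2 Γ nw hW p q hpq)
  · exact fans4_mk hAL hRB hALT hMEM Γ nw hW _ _ _ _ (fans4_nodup _ _ _ _ (by omega)
      (by omega) (by omega) (by omega) (by omega) (by omega)) (by omega) (by omega) (by omega)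
      (by omega) g1
  · exact fans4_mk hAL hRB hALT hMEM Γ nw hW _ _ _ _ (fans4_nodup _ _ _ _ (by omega)
      (by omega) (by omega) (by omega) (by omega) (by omega)) (by omega) (by omega) (by omega)
      (by omega) g2
  · exact fans4_mk hAL hRB hALT hMEM Γ nw hW _ _ _ _ (fans4_nodup _ _ _ _ (by omega)
      (by omega) (by omega) (by omega) (by omega) (by omega)) (by omega) (by omega) (by omega)
      (by omega) g3
  · intro j hj T hT
    obtain ⟨h1, h2, h3⟩ := fans4_TT _ T hT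
    have e : ∀ i, pt j i = 3 + 6 * j + i := fun i => rfl
    have e1 := e T.1
    have e2 := e T.2.1
    have e3 := e T.2.2
    exact fans4_mk hAL hRB hALT hMEM Γ nw hW _ _ _ _ (fans4_nodup _ _ _ _ (by omega)
      (by omega) (by omega) (by omega) (by omega) (by omega)) (by omega) (by omega) (by omega)
      (by omega) (hF4 Γ nw hW j hj T hT)
  · intro j hj T hT
    obtain ⟨h1, h2, h3, h4⟩ := fans4_FL _ T hT
    have e : ∀ i, pt j i = 3 + 6 * j + i := fun i => rfl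
    have e1 := e T.1
    have e2 := e T.2.1
    have e3 := e T.2.2.1
    have e4 := e T.2.2.2
    exact fans4_mk hAL hRB hALT hMEM Γ nw hW _ _ _ _ (fans4_nodup _ _ _ _ (by omega)
      (by omega) (by omega) (by omega) (by omega) (by omega)) (by omega) (by omega) (by omega)
      (by omega) (hF5 Γ nw hW j hj T hT)

end Pool.Agent.Helper54.S4
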