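import Pool.Agent.Helper54.S4.Stmts

/-!
Module SCL of the `SPR_4` project: the configuration of all half gates.
-/

namespace Pool.Agent.Helper54.S4

open Finset Pool.Agent.Helper54.SP

/-- the six points of a half gate have increasing ordinates -/
theorem scl_inc (hPT : ST_PT4) (hLV : ST_LV4) (Γ : List Gt) (nw : ℕ) (y : ℕ → ℝ) (hW : WF Γ nw)
    (hy : YOK Γ nw y) (m : ℕ) (hm : m < 4 * Γ.length) :
    ∀ i, i < 5 → y (pt m i) < y (pt m (i + 1)) := by
  obtain ⟨P1, P2, P3, P4, P5, P6, P7⟩ := hPT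
  obtain ⟨L1, L2, L3, L4, L5, L6⟩ := hLV Γ nw hW
  intro i hi
  have a1 := P1 m i (by omega)
  have a2 := P1 m (i + 1) (by omega)
  have b1 : pt m i < N4 Γ := (P3 Γ _ a1.2.2.2).2 (by rw [a1.1]; simpa using hm)
  have b2 : pt m (i + 1) < N4 Γ := (P3 Γ _ a2.2.2.2).2 (by rw [a2.1]; simpa using hm)
  have hlt : pt m i < pt m (i + 1) := by simp [pt]
  apply hy.yo _ _ (by omega) (by omega) b1 b2
  exact L5 _ _ a1.2.2.2 hlt b2 (by rw [a1.1, a2.1])

theorem st_SCL (hLOC : ST_LOC4) (hLL : ST_LL4) (hSTC : ST_STC) (hSTB : ST_STB) (hPT : ST_PT4)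
    (hLV : ST_LV4) : ST_SCL := by
  intro Γ nw y hW hy
  have key : ∀ m, m ≤ 4 * Γ.length → ∃ x z : ℕ → ℝ, St Γ nw y m x z := by
    intro m
    induction m with
    | zero =>
      intro _
      refine ⟨fun _ => 0, fun _ => 1, ⟨rfl, rfl, ?_, ?_, ?_, ?_⟩⟩
      · intro p q h1 h2 h3
        omega
      · intro p _
        norm_num
      · intro p q r h1 h2 h3 h4 h5
        omega
      · intro p q r s h1 h2 h3 h4 h5 h6
        omega
    | succ m ih =>
      intro hm
      obtain ⟨x, z, hS⟩ := ih (by omega)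
      have hm' : m < 4 * Γ.length := by omega
      have hinc := scl_inc hPT hLV Γ nw y hW hy m hm'
      obtain ⟨ξ, x0, xi, x3⟩ := hLOC (tj m) (fun i => y (pt m i)) hinc
        (fun ht => hy.g1 m hm' (by simpa [tj] using ht))
        (fun ht => hy.g0 m hm' (by
          have : ¬ (m % 2 = 1) := by simpa [tj] using ht
          omega))
      obtain ⟨h, h0, h4, h3⟩ := hLL (tj m) ξ (fun i => y (pt m i)) x3
      obtain ⟨c, k, hG⟩ := hSTC Γ nw y hW hy m x z ξ hm' hS x0 xi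
      obtain ⟨b, hb⟩ := hSTB Γ nw y hW hy m x z ξ h c k hm' hS x0 xi hG h0 x3 h4 h3
      exact ⟨_, _, hb⟩
  exact key _ le_rfl

end Pool.Agent.Helper54.S4
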